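import Pool.Agent.N326.GS.E

/-!
# Axis-parallel squares in lattice sets of divergent harmonic weight: small VC dimension

For `A ⊆ ℤ²` and `N`, a finite set `T ⊆ [-N, N]` is shattered by the rows of `A ∩ [-N, N]²` if every
subset of `T` is the trace on `T` of a row `{x : (x, y) ∈ A}` with `|y| ≤ N`.  At most
`log_2 (2 N + 1)` points can be shattered, whatever `A` is.  We prove that a set `A` with
`S(A) = ∞` contains an axis-parallel square as soon as, for every large `N`, the rows or the columns
of `A ∩ [-N, N]²` shatter no set of more than `log N / (100 log log N)` points, and that a set without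
axis-parallel squares whose rows have VC dimension at most `d` has at most
`C_d N ^ (2 - 1 / (4 d + 4))` points in `[-N, N]²`.
-/

namespace Pool.Agent.Results.MP_b31126_co.SmallVCDimension

open N326.GS Finset

/-- at most `log_2 (2 N + 1)` points can be shattered -/
theorem trivial_bound (A : Set (ℤ × ℤ)) (N : ℕ) (T : Finset ℤ) (hT : Shattered A N T) :
    2 ^ T.card ≤ 2 * N + 1 := by
  classical
  choose! f hf using hT.2
  have h : T.powerset.card ≤ (Icc (-(N : ℤ)) N).card := by
    refine card_le_card_of_injOn f ?_ ?_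
    · intro S hS
      have hS' := mem_powerset.mp (mem_coe.mp hS)
      rw [mem_coe, mem_Icc]
      exact abs_le.mp (hf S hS').1
    · intro S hS S' hS' hSS
      have h1 := mem_powerset.mp (mem_coe.mp hS)
      have h2 := mem_powerset.mp (mem_coe.mp hS')
      ext x
      constructor
      · intro hx
        have h3 := ((hf S h1).2 x (h1 hx)).mpr hx
        rw [hSS] at h3
        exact ((hf S' h2).2 x (h1 hx)).mp h3
      · intro hx
        have h3 := ((hf S' h2).2 x (h2 hx)).mpr hx
        rw [← hSS] at h3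
        exact ((hf S h1).2 x (h2 hx)).mp h3
  rw [card_powerset, Int.card_Icc] at h
  omega

/-- **Axis-parallel squares in lattice sets of small VC dimension.**
(1) If `S(A) = ∞` and, for every large `N`, the rows or the columns of `A ∩ [-N, N]²` shatter no set
of more than `log N / (100 log log N)` points, then `A` contains an axis-parallel square.
(2) For every `d` there is `C` such that every `A` without axis-parallel squares whose rows have VC
dimension at most `d` satisfies `|A ∩ [-N, N]²| ≤ C N ^ (2 - 1 / (4 d + 4))` for all `N ≥ 1`.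
(3) For every `A`, the rows of `A ∩ [-N, N]²` shatter only sets `T` with `2 ^ |T| ≤ 2 N + 1`. -/
theorem result :
    (∀ (A : Set (ℤ × ℤ)) (N₀ : ℕ),
      (∀ N : ℕ, N₀ ≤ N →
        (∀ T : Finset ℤ, Shattered A N T →
          (T.card : ℝ) ≤ Real.log N / (100 * Real.log (Real.log N))) ∨
        (∀ T : Finset ℤ, Shattered (Prod.swap ⁻¹' A) N T →
          (T.card : ℝ) ≤ Real.log N / (100 * Real.log (Real.log N)))) →
      ¬ Summable (A.indicator (fun p : ℤ × ℤ => (1 : ℝ) / ((p.1 : ℝ) ^ 2 + (p.2 : ℝ) ^ 2))) →
      HasSquare A) ∧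
    (∀ d : ℕ, ∃ C : ℝ, 0 < C ∧ ∀ A : Set (ℤ × ℤ), VCAtMost A d → ¬ HasSquare A →
      ∀ N : ℕ, 1 ≤ N →
        ({p : ℤ × ℤ | p ∈ A ∧ |p.1| ≤ N ∧ |p.2| ≤ N}.ncard : ℝ) ≤
          C * (N : ℝ) ^ (2 - 1 / (4 * (d : ℝ) + 4))) ∧
    (∀ (A : Set (ℤ × ℤ)) (N : ℕ) (T : Finset ℤ), Shattered A N T → 2 ^ T.card ≤ 2 * N + 1) := by
  refine ⟨fun A N₀ hA hS => ?_, real_power, trivial_bound⟩
  by_contra hsq
  exact hS (main' A N₀ hA hsq)

end Pool.Agent.Results.MP_b31126_co.SmallVCDimension
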